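import Pool.Agent.Lib.MP_ef197a_an.Spiral3

open Pool.Agent.Lib.MP_ef197a_an Filter Topology

/-- For a convex body and a point of Euclidean 3-space the shifted Douglas-Rachford
iterates need not converge, although the fixed point set of `v + T` is a ray. -/
theorem Pool.Agent.Results.MP_ef197a_an.ConvexBodyFails.result :
    ∃ (A : Set (EuclideanSpace ℝ (Fin 3))) (b v x : EuclideanSpace ℝ (Fin 3))
      (PA PB : EuclideanSpace ℝ (Fin 3) → EuclideanSpace ℝ (Fin 3)),
      IsCompact A ∧ Convex ℝ A ∧ (interior A).Nonempty ∧ IsProj A PA ∧ IsProj {b} PB ∧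
      IsMinDisplacement (drOp PA PB) v ∧ v ≠ 0 ∧
      (∃ z, {y | y = v + drOp PA PB y} = {y | ∃ t : ℝ, 0 ≤ t ∧ y = z - t • v}) ∧
      ¬ ∃ l, Tendsto (fun n : ℕ => (drOp PA PB)^[n] x + (n : ℝ) • v) atTop (𝓝 l) :=
  Spiral.main
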