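import Pool.Agent.Lib.MP_ef197a_an.Smooth77

open Pool.Agent.Lib.MP_ef197a_an Filter Topology

/-- For closed convex sets of a finite-dimensional real inner product space with a nearest pair
`(a, b)` at which at least one of the two sets contains a non-degenerate tangent ball, the shifted
Douglas-Rachford iterates `T^n x + n v` converge. -/
theorem Pool.Agent.Results.MP_ef197a_an.InnerBall.result
    {E : Type*} [NormedAddCommGroup E] [InnerProductSpace ℝ E] [FiniteDimensional ℝ E]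
    (A B : Set E) (hA : IsClosed A) (hB : IsClosed B) (cA : Convex ℝ A) (cB : Convex ℝ B)
    (a b : E) (ha : a ∈ A) (hb : b ∈ B) (hab : ∀ a' ∈ A, ∀ b' ∈ B, ‖a - b‖ ≤ ‖a' - b'‖)
    (r s : ℝ) (hr : 0 ≤ r) (hs : 0 ≤ s) (hrs : 0 < r + s)
    (hra : Metric.closedBall (a + r • (a - b)) (r * ‖a - b‖) ⊆ A)
    (hsb : Metric.closedBall (b - s • (a - b)) (s * ‖a - b‖) ⊆ B)
    (PA PB : E → E) (hPA : IsProj A PA) (hPB : IsProj B PB)
    (v : E) (hv : IsMinDisplacement (drOp PA PB) v) (x : E) :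
    ∃ l : E, Tendsto (fun n : ℕ => (drOp PA PB)^[n] x + (n : ℝ) • v) atTop (𝓝 l) :=
  S77.main hPA hPB cA cB hA hB ha hb hab hr hs hrs hra hsb v hv x
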