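import Pool.Agent.Lib.MP_ef197a_an.Proof

open Pool.Agent.Lib.MP_ef197a_an Filter Topology

/-- For two closed balls of a real inner product space (in particular of Euclidean 3-space) the
shifted Douglas-Rachford iterates `T^n x + n v` converge in norm. -/
theorem Pool.Agent.Results.MP_ef197a_an.TwoBalls.result
    {E : Type*} [NormedAddCommGroup E] [InnerProductSpace ℝ E]
    (a b : E) (α β : ℝ) (hα : 0 ≤ α) (hβ : 0 ≤ β) (PA PB : E → E)
    (hA : IsProj (Metric.closedBall a α) PA) (hB : IsProj (Metric.closedBall b β) PB)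
    (v : E) (hv : IsMinDisplacement (drOp PA PB) v) (x : E) :
    ∃ l : E, Tendsto (fun n : ℕ => (drOp PA PB)^[n] x + (n : ℝ) • v) atTop (𝓝 l) :=
  main hα hβ hA hB v hv x
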